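import Pool.Agent.Results.MP_787500_nt.AllWeightsMultiquadraticX49
import Pool.Agent.Results.MP_6e2fc3_nt.CMFormsAllWeights
import Pool.Agent.Run7.h359.Twr
import Pool.Agent.Run7.h359.La13
import Pool.Agent.Run7.h359.Gng

/-!
# The Abel–Jacobi maps of the motives of all weights `2k` of the twists of `X_0(49)`

`K = ℚ(√-7)`. Let `E_D` be the quadratic twist by `D` of `X_0(49)`, an elliptic curve over `ℚ` with
complex multiplication by `ℤ[ω]`, `ω² = ω - 2`, over `K`. The group `Gal(ℚ̄/K)` acts on its `2`-adic Tate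
module by two characters `κ`, `κ'`. For `k > 0` let `M_k` be the part of the polarized Chow motive
`h^{2k-1}(E_D^{2k-1})(k)` of weight `-1` over a real field `F` that belongs to the newform of weight `2k`
of the Hecke character `ψ_D^{2k-1}`: a motive of rank two, not of the form `h¹(A)(1)` for `k > 1`. Its
`2`-adic realization `V_k` is the representation of `Gal(ℚ̄/F)` induced from `κ^k κ'^(1-k)`; over
`L = F(√-7)` it is `ℚ_2(κ^k κ'^(1-k)) ⊕ ℚ_2(κ^(1-k) κ'^k)`. For `M > 0`, `M = 1 mod 8`, the sign of the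
functional equation over `ℚ` is `+1` for `D = M` if `k` is odd, and for `D = -M` if `k` is even.

Theorem. The class consists of the squarefree `D = 1 mod 8` with all prime factors `1 mod 4`. Let
`F = ℚ(√d_1, …, √d_n)` and suppose that all the numbers `M ∏_{i ∈ T} d_i` are, up to squares, numbers `D`
of the class such that `E_D(ℚ)` is finite and `Ш(E_D/ℚ)` has no element of order two: a condition on
weight `2` and the field `ℚ` only. Then, for **all** `k > 0`, for the curve `E_M` if `k` is odd and for the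
curve `E_{-M}` if `k` is even:
* `H⁰(L, V_k) = 0`, so that `CH(M_k)⁰ = CH(M_k)` over `L` and over `F`;
* `H¹_f(F, V_k) = 0` and `H¹_f(L, V_k) = 0`, so that the image of `AJ_2` is `H¹_f`.
For all `M`, `d_1, …, d_n` of the class (`d_1, …, d_n` independent modulo squares) this applies to
`(M D, d)` for **exactly** the proportion `c ^ 2 ^ n` of the `D` of the class,
`c = ∏_{i ≥ 0} (1 - 2^{-2i-1}) = 0.4194…`; for **exactly** the proportion `c ^ 2 ^ n / 4` of **all** the
pairs `(a, b)` of integers the number `N = a² + b²` is `1 mod 8` and it applies to `(M N, d)`; and for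
every fixed good `M` it applies to an infinite tower of fields `F`.

The statement on `H¹_f` uses the analysis of the elements of `L^× / L^×²` with local conditions of the
starting files (`Pool/Agent/R384`), which was applied there to the numbers with prime factors `1 mod 8`
split in `K` or `5 mod 8` inert in `K` and odd `k`. New: all prime factors `1 mod 4`, the even `k` for the
curve `E_{-M}` (`Gab`, `Gng`: modulo four its characters are those of `E_M` with the two places above `2`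
exchanged), the `H⁰`, the exact proportions (`La1` to `La13`, after the laws without the condition modulo
`8` in `R413` (starting files) and `Run7/h428` (helper428)) and the towers (`Twr`), all in
`Pool/Agent/Run7/h359`.
-/

set_option autoImplicit false

namespace Pool.Agent.Results.MP_009fd8_ag.OddWeightsSelmerMultiquadratic

open Pool.Agent.Results.MP_787500_nt.AllWeightsMultiquadraticX49
open Pool.Agent.Results.MP_6e2fc3_nt.CMFormsAllWeights
open Filter Topology
open scoped Classical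

/-- The class: `D = 1 mod 8` is squarefree, and all its prime factors are `1 mod 4`. -/
def Wide (D : ℕ) : Prop := Squarefree D ∧ D % 8 = 1 ∧ ∀ p : ℕ, p.Prime → p ∣ D → p % 4 = 1

/-- The good pairs: all the numbers `M ∏_{i ∈ T} d_i` are, up to nonzero squares, numbers `D` of the
class such that `E_D(ℚ)` is finite and `Ш(E_D/ℚ)` has no element of order two. -/
def GoodPair (M : ℕ) {n : ℕ} (d : Fin n → ℕ) : Prop := ∀ T : Finset (Fin n), ∃ D k : ℕ,
  k ≠ 0 ∧ Wide D ∧ RankZeroShaTwo D ∧ M * ∏ i ∈ T, d i = D * k ^ 2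

/-- The property `P` holds for the proportion `δ` of the numbers `D` of the class. -/
def Proportion (δ : ℝ) (P : ℕ → Prop) : Prop := Tendsto (fun X : ℕ =>
  (((Finset.Icc 1 X).filter fun D => Wide D ∧ P D).card : ℝ) /
    (((Finset.Icc 1 X).filter fun D => Wide D).card : ℝ)) atTop (𝓝 δ)

/-- The number of the pairs `(a, b)` of integers with `a² + b² ≤ X` and with `P (a² + b²)`. -/
noncomputable def pairs (P : ℕ → Prop) (X : ℕ) : ℕ :=
  Nat.card {v : ℤ × ℤ // v.1.natAbs ^ 2 + v.2.natAbs ^ 2 ≤ X ∧ P (v.1.natAbs ^ 2 + v.2.natAbs ^ 2)}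

/-- `P (a² + b²)` holds for the proportion `δ` of all the pairs `(a, b)` of integers, ordered by
`a² + b²`. -/
def PairProportion (δ : ℝ) (P : ℕ → Prop) : Prop := Tendsto (fun X : ℕ =>
  (pairs P X : ℝ) / (pairs (fun _ => True) X : ℝ)) atTop (𝓝 δ)

/-- The curve `E_{-D} : y² + x y = x³ + ((3 D - 1) / 4) x² - 2 D² x + D³` over `ℚ`, the quadratic twist
by `-D` of `X_0(49)`. -/
def Eneg (D : ℕ) : WeierstrassCurve ℚ :=
  { a₁ := 1, a₂ := (3 * (D : ℚ) - 1) / 4, a₃ := 0, a₄ := -2 * (D : ℚ) ^ 2, a₆ := (D : ℚ) ^ 3 }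

/-- The vector `z` of `ℚ_2(χ)` is fixed by the Galois group `H`. -/
def Fixed {w : QBar} (H : Sub w) (χ : Chr w) (z : ℚ_[2]) : Prop := ∀ σ ∈ H, qv χ σ * z = z

/-- For `V_k`, given by the characters `κ`, `κ'`, `L = K(√d_1, …, √d_n)` and `F = ℚ(√d_1, …, √d_n)`,
`s i ^ 2 = d_i`: `H⁰(L, V_k) = 0`, `H¹_f(L, V_k) = 0` and `H¹_f(F, V_k) = 0`. -/
def Vanish {w : QBar} {n : ℕ} (s : Fin n → QBar) (κ κ' : Chr w) (k : ℤ) : Prop :=
  (∀ z : ℚ_[2], Fixed (GalL w s) (chi κ κ' k) z ∨ Fixed (GalL w s) (chi κ κ' (1 - k)) z → z = 0) ∧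
  (SelmerZero (1 - w) (GalL w s) (chi κ κ' k) ∧ SelmerZero w (GalL w s) (chi κ κ' (1 - k))) ∧
  ∀ c₀ : GQ, c₀ w = 1 - w → Zero s (chi κ κ' k) c₀

/-- The curve `E_M` is over `K` isomorphic to the elliptic curve `ED w (tw M)`, the absolute Galois group
of `K` acts on its `2`-adic Tate module by `κ`, `κ'`, and for `L = K(√d_1, …, √d_n)`,
`F = ℚ(√d_1, …, √d_n)` and all **odd** `k > 0`: `H⁰(L, V_k) = 0`, `H¹_f(L, V_k) = 0` and
`H¹_f(F, V_k) = 0`; and the same for the curve `E_{-M}` and all **even** `k > 0`. -/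
def AbelJacobiTwo (M : ℕ) {n : ℕ} (d : Fin n → ℕ) : Prop := ∀ w : QBar, w ^ 2 = w - 2 →
  (Iso (EK w M) (ED w (tw M)) ∧ (ED w (tw M)).IsElliptic ∧
    ∃ κ κ' : Chr w, TateModule (tw M) κ κ' ∧
      ∀ s : Fin n → QBar, (∀ i, s i ^ 2 = (d i : QBar)) → ∀ k : ℤ, 0 < k → Odd k →
        Vanish s κ κ' k) ∧
  (Iso ((Eneg M).map (algebraMap ℚ (K w))) (ED w (-tw M)) ∧ (ED w (-tw M)).IsElliptic ∧
    ∃ κ κ' : Chr w, TateModule (-tw M) κ κ' ∧
      ∀ s : Fin n → QBar, (∀ i, s i ^ 2 = (d i : QBar)) → ∀ k : ℤ, 0 < k → Even k →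
        Vanish s κ κ' k)

/-- There is an infinite sequence `D_0, D_1, …` of members of the class such that for all `n` the field
`F_n = ℚ(√D_0, …, √D_{n-1})` has degree `2 ^ n` (no product of some of the `D_i` is a square), and
`AbelJacobiTwo` holds over `F_n`. -/
def Tower (M : ℕ) : Prop :=
  ∃ D : ℕ → ℕ, (∀ i, Wide (D i)) ∧
    ∀ n : ℕ, Ind (fun i : Fin n => D i) ∧ AbelJacobiTwo M (fun i : Fin n => D i)

section proof

theorem fixed_of {w : QBar} {H : Sub w} {χ : Chr w} (h : ∃ σ ∈ H, qv χ σ ≠ 1) {z : ℚ_[2]}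
    (hz : Fixed H χ z) : z = 0 := by
  obtain ⟨σ, hσ, hne⟩ := h
  by_contra h0
  exact hne (mul_right_cancel₀ h0 ((hz σ hσ).trans (one_mul z).symm))

theorem all_of_pair {M n : ℕ} {d : Fin n → ℕ} (hG : GoodPair M d) : AbelJacobiTwo M d := by
  intro w hw
  constructor
  · obtain ⟨h1, h2, κ, κ', h3, h4⟩ := Run7.h359.WD.all_ofW hG hw
    refine ⟨h1, h2, κ, κ', h3, fun s hs k hk0 hk => ⟨?_, (h4 s hs).1 k hk0 hk, fun c₀ hc₀ => ?_⟩⟩
    · rintro z (hz | hz)
      · exact fixed_of ((h4 s hs).2 k) hz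
      · exact fixed_of ((h4 s hs).2 (1 - k)) hz
    · exact zero_of hw hc₀ hs ((h4 s hs).1 k hk0 hk).1
  · obtain ⟨h1, h2, κ, κ', h3, h4⟩ := Run7.h359.GA.neg_ofW hG hw
    refine ⟨h1, h2, κ, κ', h3, fun s hs k _ hk => ?_⟩
    have ho : Odd (1 - k) := by
      rw [Int.odd_sub]
      simp [hk]
    have e : chi κ κ' (1 - k) = κ ^ (1 - k) * κ' ^ k := by
      unfold chi
      rw [sub_sub_cancel]
    obtain ⟨h5, h6⟩ := (h4 s hs).1 k (1 - k) hk ho
    refine ⟨?_, ⟨h5, ?_⟩, fun c₀ hc₀ => zero_of hw hc₀ hs h5⟩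
    · rintro z (hz | hz)
      · exact fixed_of ((h4 s hs).2 k (1 - k) (by simp)) hz
      · rw [e] at hz
        exact fixed_of ((h4 s hs).2 (1 - k) k (by simp)) hz
    · rw [e]
      exact h6

theorem prop_of {δ : ℝ} {P Q : ℕ → Prop} (h : Run7.h359.LB.Prp δ P) (hPQ : ∀ D, P D ↔ Q D) :
    Proportion δ Q := by
  have e : P = Q := funext fun D => propext (hPQ D)
  subst e
  exact h

theorem pair_of {δ : ℝ} {P Q : ℕ → Prop} (h : Run7.h359.LB.PrB δ P) (hPQ : ∀ D, P D ↔ Q D) :
    PairProportion δ Q := by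
  have e : P = Q := funext fun D => propext (hPQ D)
  subst e
  exact h

end proof

/-- **The Abel–Jacobi maps of all weights, `p = 2`, over multiquadratic fields.** -/
theorem result :
    (∀ (n M : ℕ) (d : Fin n → ℕ), GoodPair M d → AbelJacobiTwo M d) ∧
    (∀ (n M : ℕ) (d : Fin n → ℕ), Wide M → (∀ i, Wide (d i)) → Ind d →
      Proportion (c ^ 2 ^ n) (fun D => GoodPair (M * D) d ∧ AbelJacobiTwo (M * D) d) ∧
      PairProportion (c ^ 2 ^ n / 4)
        (fun N => N % 8 = 1 ∧ GoodPair (M * N) d ∧ AbelJacobiTwo (M * N) d)) ∧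
    (∀ M : ℕ, Wide M → RankZeroShaTwo M → Tower M) ∧ 0.4194 < c ∧ c < 0.4195 := by
  obtain ⟨-, -, -, h4, h5⟩ := Pool.Agent.Results.MP_787500_nt.AllWeightsMultiquadraticX49.result
  refine ⟨fun n M d h => all_of_pair h, fun n M d hM hd hI => ⟨?_, ?_⟩, fun M hM hR => ?_, h4, h5⟩
  · exact prop_of (Run7.h359.LB.prp_good hM hd hI) fun D => ⟨fun h => ⟨h, all_of_pair h⟩,
      fun h => h.1⟩
  · exact pair_of (Run7.h359.LB.prB_good hM hd hI) fun D =>
      ⟨fun h => ⟨h.1, h.2, all_of_pair h.2⟩, fun h => ⟨h.1, h.2.1⟩⟩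
  · obtain ⟨D, h1, h2⟩ := Run7.h359.TW.exists_tower hM hR
    exact ⟨D, h1, fun n => ⟨(h2 n).1, all_of_pair (h2 n).2⟩⟩

end Pool.Agent.Results.MP_009fd8_ag.OddWeightsSelmerMultiquadratic
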