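import Mathlib
import Pool.Agent.Run7.h318.BK.U2
import Pool.Agent.Run7.h318.DI.C

/-!
# The Bloch–Kato Selmer groups `H¹_f(ℚ, V_2 W)`, ordered by the minimal discriminant

For an elliptic curve `W` over `ℚ` and a prime `p`, `H1f p W` (`Pool/Agent/Run7/h318/BK/Def.lean`) is
the Bloch–Kato Selmer group `H¹_f(ℚ, V_p(W))`, a vector space over `ℚ_p`: the classes of the
continuous cocycles of the absolute Galois group of `ℚ` with values in `V_p(W) = T_p(W) ⊗ ℚ_p` whose
restriction to every `ℚ_l` is in `H¹_f(ℚ_l, V_p(W))`. This is the case `K = ℚ`, `M = h¹(W)(1)` of the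
problem. `ajImage p W` is the image of the Abel–Jacobi (Kummer) map
`W(ℚ) ⊗ ℚ_p → H¹_f(ℚ, V_p(W))`, which is conjectured to be everything; `codim p W` is its
codimension.

Theorem. Let `W` run through all the elliptic curves over `ℚ` with full rational 2-torsion, ordered
by the absolute value of the minimal discriminant; the number of those with `|Δ_min| ≤ X` is
of the exact order `X ^ (1 / 3)`. The space `H¹_f(ℚ, V_2(W))` has finite dimension, and the average of
`4 ^ dim H¹_f(ℚ, V_2(W))` over the curves with `|Δ_min| ≤ X` is bounded. So the codimension of the image of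
the Abel–Jacobi map is bounded on average, and at least `M` for a proportion at most `C / 4 ^ M` of
the curves, for all `M` and `X`.

The proof. The curves are `y² = x (x - a) (x - b)`, with `|Δ_min|` equal to `(a b (a - b))²` up to a
bounded factor. The region `|a b (a - b)| ≤ Y` is not compact: it has three cusps, which are very thin
far from the origin. Up to the symmetries it is covered by dyadic rectangles, and these by squares
whose side is a small power of `Y` and at least a fixed power of the distance from the origin; the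
total area of the squares is at most a constant times `Y ^ (2 / 3)`
(`Pool/Agent/Run7/h318/DI`). In such squares the second moment of `2 ^ dim H¹_f(ℚ, V_2(W))` is bounded
(`Pool/Agent/Run7/h318/BK`, where the counting is the one of helper69).
-/

set_option autoImplicit false

namespace Pool.Agent.Results.MP_009fd8_ag.SelmerByDiscriminant

open Finset

open Run7.h318.BK (H1f dimH1f ajImage codim QQ)

/-- The equation `y ^ 2 = x ^ 3 + A x + B` with integers `A`, `B` defines an elliptic curve, and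
there is no prime `p` with `p ^ 4 ∣ A` and `p ^ 6 ∣ B`. Every elliptic curve over `ℚ` is isomorphic to
exactly one of these. -/
structure IsMinimal (A B : ℤ) : Prop where
  elliptic : 4 * A ^ 3 + 27 * B ^ 2 ≠ 0
  minimal : ∀ p : ℕ, p.Prime → ¬ ((p : ℤ) ^ 4 ∣ A ∧ (p : ℤ) ^ 6 ∣ B)

/-- The curve `y ^ 2 = x ^ 3 + A x + B` over `ℚ`. -/
def curve (c : ℤ × ℤ) : WeierstrassCurve ℚ := ⟨0, 0, 0, (c.1 : ℚ), (c.2 : ℚ)⟩

/-- The group of the rational points contains `Z/2 x Z/2`. -/
def FullTwo (W : WeierstrassCurve ℚ) : Prop :=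
  ∃ f : ZMod 2 × ZMod 2 →+ W.toAffine.Point, Function.Injective f

/-- The absolute value of the minimal discriminant: the least absolute value of the discriminant
of a Weierstrass equation `W'` with integer coefficients which becomes isomorphic to `W` over `ℚ` (by
a change of the variables `C`). -/
noncomputable def minDisc (W : WeierstrassCurve ℚ) : ℕ :=
  sInf {n : ℕ | ∃ (W' : WeierstrassCurve ℤ) (C : WeierstrassCurve.VariableChange ℚ),
    C • W = W'.map (Int.castRingHom ℚ) ∧ n = W'.Δ.natAbs}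

/-- The set of all the elliptic curves over `ℚ` (up to isomorphism) with full rational 2-torsion and
minimal discriminant at most `X` in absolute value. -/
def Fam (X : ℕ) : Set (ℤ × ℤ) :=
  {c | IsMinimal c.1 c.2 ∧ FullTwo (curve c) ∧ minDisc (curve c) ≤ X}

/-- `H¹_f(ℚ, V_2(W))` has finite dimension, which is the sum of the dimension and the codimension of
the image of the Abel–Jacobi map. -/
def Fin2 (W : WeierstrassCurve ℚ) : Prop :=
  Module.Finite ℚ_[2] (H1f 2 W) ∧ codim 2 W + Module.finrank ℚ_[2] (ajImage 2 W) = dimH1f 2 W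

lemma Fam_eq (X : ℕ) : Fam X = Run7.h318.DI.Fm X := by
  ext c
  have h : Pool.Agent.W307.RT.HasT 2 (Pool.Agent.W307.RT.Sh c.1 c.2) ↔ FullTwo (curve c) :=
    Pool.Agent.W307.RT.tors_iff
  constructor
  · rintro ⟨⟨h1, h2⟩, h3, h4⟩
    exact ⟨h1, h2, h.2 h3, h4⟩
  · rintro ⟨h1, h2, h3, h4⟩
    exact ⟨⟨h1, h2⟩, h.1 h3, h4⟩

lemma rel_ne {c t : ℤ × ℤ} (h : Run7.h69.UH.Rel c t) : 4 * c.1 ^ 3 + 27 * c.2 ^ 2 ≠ 0 := by
  rw [Run7.h318.DI.rel_disc h]
  obtain ⟨_, _, _, _, n1, n2, n3⟩ := h
  exact neg_ne_zero.2 (pow_ne_zero 2 (mul_ne_zero (mul_ne_zero n1 n2) (sub_ne_zero.2 n3)))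

lemma fin2_of {W : WeierstrassCurve ℚ} (h : Module.Finite ℚ_[2] (H1f 2 W)) : Fin2 W :=
  ⟨h, Submodule.finrank_quotient_add_finrank (ajImage 2 W)⟩

/-- **Theorem.** The elliptic curves `W` over `ℚ` with full rational 2-torsion, ordered by the
absolute value of the minimal discriminant. There are finitely many with `|Δ_min| ≤ X`, and their
number is of the exact order `X ^ (1 / 3)`; for each of them `H¹_f(ℚ, V_2(W))` has finite dimension; the
average of `4 ^ dim H¹_f(ℚ, V_2(W))` is bounded; and the proportion of the curves for which the dimension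
of `H¹_f(ℚ, V_2(W))` is at least `M`, in particular that of those for which the codimension of the image of
the Abel–Jacobi map is at least `M`, is at most `C / 4 ^ M`. -/
theorem result :
    (∀ X : ℕ, (Fam X).Finite) ∧
    (∃ (c C : ℝ) (X₀ : ℕ), 0 < c ∧ ∀ X : ℕ, X₀ ≤ X →
      c * (X : ℝ) ^ (1 / 3 : ℝ) ≤ (Fam X).ncard ∧
      ((Fam X).ncard : ℝ) ≤ C * (X : ℝ) ^ (1 / 3 : ℝ)) ∧
    (∀ X : ℕ, ∀ c ∈ Fam X, Fin2 (curve c)) ∧
    ∃ C : ℝ, ∀ X : ℕ,
      ∑ᶠ c ∈ Fam X, (4 : ℝ) ^ dimH1f 2 (curve c) ≤ C * (Fam X).ncard ∧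
      ∑ᶠ c ∈ Fam X, (4 : ℝ) ^ codim 2 (curve c) ≤ C * (Fam X).ncard ∧
      ∀ M : ℕ,
        (4 : ℝ) ^ M * ({c ∈ Fam X | M ≤ dimH1f 2 (curve c)} : Set (ℤ × ℤ)).ncard ≤
          C * (Fam X).ncard ∧
        (4 : ℝ) ^ M * ({c ∈ Fam X | M ≤ codim 2 (curve c)} : Set (ℤ × ℤ)).ncard ≤
          C * (Fam X).ncard := by
  have hfin : ∀ X : ℕ, (Fam X).Finite := by
    intro X
    rw [Fam_eq]
    exact Run7.h318.DI.Fm_finite X
  have hS : ∀ X : ℕ, (hfin X).toFinset = Run7.h318.DI.FS X := by
    intro X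
    ext c
    rw [Set.Finite.mem_toFinset, Run7.h318.DI.mem_FS, Fam_eq]
  have hcard : ∀ X : ℕ, (Fam X).ncard = (Run7.h318.DI.FS X).card := by
    intro X
    rw [Set.ncard_eq_toFinset_card _ (hfin X), hS]
  have hfd : ∀ X : ℕ, ∀ c ∈ Fam X, Fin2 (curve c) := by
    intro X c hc
    have h1 : c ∈ Run7.h318.DI.Fm X := by rw [← Fam_eq]; exact hc
    have h2 := (Run7.h318.DI.G_spec h1).1
    exact fin2_of (Run7.h318.BK.rel_dim h2 hc.1.elliptic).1
  obtain ⟨C, hC0, hC⟩ := Run7.h69.UF.box 9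
  obtain ⟨C2, hC20, hC2⟩ := Run7.h318.BK.box 9
  refine ⟨hfin, ?_, hfd, ?_⟩
  · obtain ⟨c, C', hc, h⟩ := Run7.h318.DI.number hC0 hC
    refine ⟨c, C', 7 ^ 24, hc, fun X hX => ?_⟩
    rw [hcard]
    exact h X hX
  · obtain ⟨C', h⟩ := Run7.h318.DI.average (R := Run7.h318.BK.RR) Run7.h318.BK.RR_nonneg hC20 hC2
      (w := fun c => (4 : ℝ) ^ dimH1f 2 (curve c)) (fun c t hr => by
        have h5 : (QQ (Pool.Agent.W307.RT.Sh c.1 c.2) : ℝ) ≤ (Run7.h318.BK.SN t.1 t.2 : ℝ) := by
          exact_mod_cast (Run7.h318.BK.rel_dim hr (rel_ne hr)).2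
        have h6 : (4 : ℝ) ^ dimH1f 2 (curve c) =
            (QQ (Pool.Agent.W307.RT.Sh c.1 c.2) : ℝ) ^ 2 := by
          have e : QQ (Pool.Agent.W307.RT.Sh c.1 c.2) = 2 ^ dimH1f 2 (curve c) := rfl
          rw [e]
          push_cast
          rw [← pow_mul, mul_comm, pow_mul]
          norm_num
        show (4 : ℝ) ^ dimH1f 2 (curve c) ≤ Run7.h318.BK.RR t
        rw [h6]
        exact pow_le_pow_left₀ (Nat.cast_nonneg _) h5 2)
    refine ⟨C', fun X => ?_⟩
    have h1 : ∑ c ∈ (hfin X).toFinset, (4 : ℝ) ^ dimH1f 2 (curve c) ≤ C' * (Fam X).ncard := by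
      rw [hS, hcard]
      exact h X
    have hco : ∀ c ∈ (hfin X).toFinset, codim 2 (curve c) ≤ dimH1f 2 (curve c) := by
      intro c hc
      rw [Set.Finite.mem_toFinset] at hc
      have := (hfd X c hc).2
      omega
    have h2 : ∑ c ∈ (hfin X).toFinset, (4 : ℝ) ^ codim 2 (curve c) ≤ C' * (Fam X).ncard :=
      le_trans (sum_le_sum fun c hc => pow_le_pow_right₀ (by norm_num) (hco c hc)) h1
    have tail : ∀ (f : ℤ × ℤ → ℕ), ∑ c ∈ (hfin X).toFinset, (4 : ℝ) ^ f c ≤ C' * (Fam X).ncard →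
        ∀ M : ℕ, (4 : ℝ) ^ M * ({c ∈ Fam X | M ≤ f c} : Set (ℤ × ℤ)).ncard ≤
          C' * (Fam X).ncard := by
      intro f hf M
      refine le_trans ?_ hf
      have hfin' : ({c ∈ Fam X | M ≤ f c} : Set (ℤ × ℤ)).Finite :=
        (hfin X).subset fun c hc => hc.1
      rw [Set.ncard_eq_toFinset_card _ hfin']
      calc (4 : ℝ) ^ M * (hfin'.toFinset.card : ℝ)
          = ∑ c ∈ hfin'.toFinset, (4 : ℝ) ^ M := by rw [sum_const, nsmul_eq_mul, mul_comm]
        _ ≤ ∑ c ∈ hfin'.toFinset, (4 : ℝ) ^ f c := by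
          apply sum_le_sum
          intro c hc
          rw [Set.Finite.mem_toFinset] at hc
          exact pow_le_pow_right₀ (by norm_num) hc.2
        _ ≤ _ := by
          apply sum_le_sum_of_subset_of_nonneg
          · intro c hc
            rw [Set.Finite.mem_toFinset] at hc ⊢
            exact hc.1
          · intro c _ _
            positivity
    refine ⟨?_, ?_, fun M => ⟨tail _ h1 M, tail _ h2 M⟩⟩
    · rw [finsum_mem_eq_finite_toFinset_sum _ (hfin X)]
      exact h1
    · rw [finsum_mem_eq_finite_toFinset_sum _ (hfin X)]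
      exact h2

end Pool.Agent.Results.MP_009fd8_ag.SelmerByDiscriminant
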