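import Mathlib
import Pool.Agent.Run7.h508.BR.DFM

/-!
# Abel-Jacobi maps over all number fields and everywhere unramified extensions of prime degree

Let `M` be a Chow motive over a number field `k` and `p` a prime. For the number fields `K ⊇ k` the
spaces `A(K) = CH(M_K)⁰ ⊗ ℚ_p` and `B(K) = H¹_f(K, M_p)` are functors with Galois descent, and the
Abel-Jacobi maps `A(K) → B(K)` are natural. No finiteness of the dimension of `A(K)` is used.

If the kernel and the cokernel of the Abel-Jacobi map do not grow in the everywhere unramified
extensions `L/K` of prime degree of totally complex fields, completely split above a given integer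
`m`, then they do not grow in any extension of totally complex fields. So the Abel-Jacobi map is
bijective over all number fields `K ⊇ k` if and only if it is bijective over one totally complex
field and its kernel and cokernel do not grow in these unramified extensions.
-/

set_option autoImplicit false
set_option linter.unusedSectionVars false

namespace Pool.Agent.Results.MP_009fd8_ag.UnramifiedExtensions

open NumberField

/-- A functor on the number fields which contain `k`, with values in the vector spaces over the
field `F` (of any dimension), with Galois descent. -/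
structure DescentFunctor (F : Type) [Field F] (k : Type) [Field k] [NumberField k] where
  /-- the vector space of `K` -/
  M : ∀ (K : Type) [Field K] [NumberField K] [Algebra k K], Type
  [grp : ∀ (K : Type) [Field K] [NumberField K] [Algebra k K], AddCommGroup (M K)]
  [mod : ∀ (K : Type) [Field K] [NumberField K] [Algebra k K], Module F (M K)]
  /-- the map of an embedding over `k` -/
  map : ∀ {K L : Type} [Field K] [NumberField K] [Algebra k K] [Field L] [NumberField L]
    [Algebra k L], (K →ₐ[k] L) → (M K →ₗ[F] M L)
  map_id : ∀ (K : Type) [Field K] [NumberField K] [Algebra k K] (x : M K),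
    map (AlgHom.id k K) x = x
  map_comp : ∀ {K L N : Type} [Field K] [NumberField K] [Algebra k K] [Field L] [NumberField L]
    [Algebra k L] [Field N] [NumberField N] [Algebra k N] (g : L →ₐ[k] N) (f : K →ₐ[k] L) (x : M K),
    map (g.comp f) x = map g (map f x)
  inj : ∀ {K L : Type} [Field K] [NumberField K] [Algebra k K] [Field L] [NumberField L]
    [Algebra k L] (f : K →ₐ[k] L), Function.Injective (map f)
  /-- the vectors fixed by `Gal(N/K)` come from `K` -/
  descent : ∀ (K N : Type) [Field K] [NumberField K] [Algebra k K] [Field N] [NumberField N]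
    [Algebra k N] [Algebra K N] [IsScalarTower k K N] [IsGalois K N] (x : M N),
    (∀ g : N ≃ₐ[K] N, map ((g : N →ₐ[K] N).restrictScalars k) x = x) →
      ∃ y : M K, map (IsScalarTower.toAlgHom k K N) y = x

attribute [instance] DescentFunctor.grp DescentFunctor.mod

/-- Natural linear maps `A(K) → B(K)`, such as the Abel-Jacobi maps
`CH(M_K)⁰ ⊗ ℚ_p → H¹_f(K, M_p)`. -/
structure NaturalMap {F : Type} [Field F] {k : Type} [Field k] [NumberField k]
    (A B : DescentFunctor F k) where
  /-- the map of `K` -/
  app : ∀ (K : Type) [Field K] [NumberField K] [Algebra k K], A.M K →ₗ[F] B.M K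
  nat : ∀ {K L : Type} [Field K] [NumberField K] [Algebra k K] [Field L] [NumberField L]
    [Algebra k L] (f : K →ₐ[k] L) (x : A.M K), app L (A.map f x) = B.map f (app K x)

/-- All inertia groups of `L/K` are trivial, and the decomposition groups of the primes above `m`
are trivial. -/
def UnramifiedSplit (m : ℕ) (K L : Type) [Field K] [Field L] [Algebra K L] : Prop :=
  ∀ P : Ideal (𝓞 L), P.IsMaximal → ∀ g : L ≃ₐ[K] L,
    ((∀ x y : 𝓞 L, (y : L) = g x → y - x ∈ P) → g = 1) ∧
    ((m : 𝓞 L) ∈ P → (∀ x y : 𝓞 L, (y : L) = g x → (y ∈ P ↔ x ∈ P)) → g = 1)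

section defs

variable {F : Type} [Field F] {k : Type} [Field k] [NumberField k] {A B : DescentFunctor F k}
  (AJ : NaturalMap A B)

/-- The kernel does not grow in `f : K → L`: all its elements over `L` come from `K`. -/
def KernelStable {K L : Type} [Field K] [NumberField K] [Algebra k K] [Field L] [NumberField L]
    [Algebra k L] (f : K →ₐ[k] L) : Prop :=
  ∀ x : A.M L, AJ.app L x = 0 → ∃ y : A.M K, AJ.app K y = 0 ∧ A.map f y = x

/-- The cokernel does not grow in `f : K → L`: `B(L)` is generated by `B(K)` and the image of
`A(L)`. -/
def CokernelStable {K L : Type} [Field K] [NumberField K] [Algebra k K] [Field L] [NumberField L]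
    [Algebra k L] (f : K →ₐ[k] L) : Prop :=
  ∀ x : B.M L, ∃ (y : B.M K) (z : A.M L), x = B.map f y + AJ.app L z

/-- The kernel does not grow in the everywhere unramified extensions of prime degree, split above
`m`, of totally complex fields. -/
def KernelUnramified (m : ℕ) : Prop :=
  ∀ (K L : Type) [Field K] [NumberField K] [Field L] [NumberField L] [Algebra k K] [Algebra K L]
    [Algebra k L] [IsScalarTower k K L] [IsGalois K L], IsTotallyComplex K →
    (Module.finrank K L).Prime → UnramifiedSplit m K L →
    KernelStable AJ (IsScalarTower.toAlgHom k K L)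

/-- The cokernel does not grow in the everywhere unramified extensions of prime degree, split above
`m`, of totally complex fields. -/
def CokernelUnramified (m : ℕ) : Prop :=
  ∀ (K L : Type) [Field K] [NumberField K] [Field L] [NumberField L] [Algebra k K] [Algebra K L]
    [Algebra k L] [IsScalarTower k K L] [IsGalois K L], IsTotallyComplex K →
    (Module.finrank K L).Prime → UnramifiedSplit m K L →
    CokernelStable AJ (IsScalarTower.toAlgHom k K L)

/-- The kernel does not grow in the embeddings `K → L` over `k` of totally complex fields. -/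
def KernelComplex : Prop :=
  ∀ (K L : Type) [Field K] [NumberField K] [Field L] [NumberField L] [Algebra k K] [Algebra k L]
    (f : K →ₐ[k] L), IsTotallyComplex K → KernelStable AJ f

/-- The cokernel does not grow in the embeddings `K → L` over `k` of totally complex fields. -/
def CokernelComplex : Prop :=
  ∀ (K L : Type) [Field K] [NumberField K] [Field L] [NumberField L] [Algebra k K] [Algebra k L]
    (f : K →ₐ[k] L), IsTotallyComplex K → CokernelStable AJ f

/-- The maps are injective over all number fields `K ⊇ k`. -/
def InjectiveEverywhere : Prop :=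
  ∀ (K : Type) [Field K] [NumberField K] [Algebra k K], Function.Injective (AJ.app K)

/-- The maps are surjective over all number fields `K ⊇ k`. -/
def SurjectiveEverywhere : Prop :=
  ∀ (K : Type) [Field K] [NumberField K] [Algebra k K], Function.Surjective (AJ.app K)

end defs

section proof

open Pool.Agent.Run7.h508.BR

lemma unrSplit_of {m : ℕ} {K L : Type} [Field K] [Field L] [Algebra K L]
    (h : UnrSplit m K L) : UnramifiedSplit m K L := by
  intro P hP g
  refine ⟨fun h1 => (h P hP).1 g fun x => h1 x _ rfl, fun hm h1 => (h P hP).2 hm g fun x =>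
    h1 x _ rfl⟩

variable {F : Type} [Field F] [CharZero F] {k : Type} [Field k] [NumberField k]

/-- the functor of the library -/
noncomputable def toD (A : DescentFunctor F k) : DescFun F k where
  M := fun K _ _ _ => A.M K
  grp := fun K _ _ _ => inferInstance
  mod := fun K _ _ _ => inferInstance
  map := fun f => A.map f
  map_id := A.map_id
  map_comp := A.map_comp
  inj := A.inj
  descent := A.descent

variable {A B : DescentFunctor F k} (AJ : NaturalMap A B)

/-- the natural map of the library -/
noncomputable def toM : DescMor (toD A) (toD B) where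
  app := fun K _ _ _ => AJ.app K
  nat := AJ.nat

lemma ker_all {m : ℕ} (hm : m ≠ 0) (h : KernelUnramified AJ m) : KernelComplex AJ := by
  intro K L _ _ _ _ _ _ f hK x hx
  exact (toM AJ).noGrow_ker hm (fun K L _ _ _ _ _ _ _ _ _ hK hp hu x hx =>
    h K L hK hp (unrSplit_of hu) x hx) K L hK f x hx

lemma coker_all {m : ℕ} (hm : m ≠ 0) (h : CokernelUnramified AJ m) : CokernelComplex AJ := by
  intro K L _ _ _ _ _ _ f hK x
  exact (toM AJ).noGrow_coker hm (fun K L _ _ _ _ _ _ _ _ _ hK hp hu x =>
    h K L hK hp (unrSplit_of hu) x) K L hK f x

lemma inj_iff {m : ℕ} (hm : m ≠ 0) (K₀ : Type) [Field K₀] [NumberField K₀] [Algebra k K₀]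
    (hK₀ : IsTotallyComplex K₀) :
    InjectiveEverywhere AJ ↔ Function.Injective (AJ.app K₀) ∧ KernelUnramified AJ m := by
  constructor
  · intro h
    refine ⟨h K₀, fun K L _ _ _ _ _ _ _ _ _ _ _ _ x hx => ⟨0, map_zero _, ?_⟩⟩
    rw [map_zero]
    exact ((injective_iff_map_eq_zero _).mp (h L) x hx).symm
  · rintro ⟨h0, h⟩ K _ _ _
    rw [injective_iff_map_eq_zero]
    intro x hx
    obtain ⟨N, i1, i2, i3, i4, i5, i6, i7, i8⟩ := exists_common k K₀ K
    obtain ⟨y, hy, hyx⟩ := ker_all AJ hm h K₀ N (IsScalarTower.toAlgHom k K₀ N) hK₀
      (A.map (IsScalarTower.toAlgHom k K N) x) (by rw [AJ.nat, hx, map_zero])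
    apply A.inj (IsScalarTower.toAlgHom k K N)
    rw [← hyx, (injective_iff_map_eq_zero _).mp h0 y hy, map_zero, map_zero]

lemma surj_iff {m : ℕ} (hm : m ≠ 0) (K₀ : Type) [Field K₀] [NumberField K₀] [Algebra k K₀]
    (hK₀ : IsTotallyComplex K₀) :
    SurjectiveEverywhere AJ ↔ Function.Surjective (AJ.app K₀) ∧ CokernelUnramified AJ m := by
  constructor
  · intro h
    refine ⟨h K₀, fun K L _ _ _ _ _ _ _ _ _ _ _ _ x => ?_⟩
    obtain ⟨z, hz⟩ := h L x
    exact ⟨0, z, by rw [map_zero, zero_add, hz]⟩
  · rintro ⟨h0, h⟩ K _ _ _ x
    obtain ⟨N, i1, i2, i3, i4, i5, i6, i7, i8⟩ := exists_common k K₀ K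
    obtain ⟨y, z, hyz⟩ := coker_all AJ hm h K₀ N (IsScalarTower.toAlgHom k K₀ N) hK₀
      (B.map (IsScalarTower.toAlgHom k K N) x)
    obtain ⟨w, hw⟩ := h0 y
    have h1 : (toD B).map (IsScalarTower.toAlgHom k K N) x ∈ LinearMap.range ((toM AJ).app N) := by
      refine ⟨A.map (IsScalarTower.toAlgHom k K₀ N) w + z, ?_⟩
      change AJ.app N (A.map (IsScalarTower.toAlgHom k K₀ N) w + z) =
        B.map (IsScalarTower.toAlgHom k K N) x
      rw [map_add, AJ.nat, hw, hyz]
    exact (toM AJ).range_of (IsScalarTower.toAlgHom k K N) h1

end proof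

/-- **Main theorem.** Let `A` and `B` be functors with Galois descent on the number fields
`K ⊇ k`, with values in vector spaces of any dimension over a field `F` of characteristic zero
(`A(K) = CH(M_K)⁰ ⊗ ℚ_p`, `B(K) = H¹_f(K, M_p)`, `F = ℚ_p`), let `AJ : A(K) → B(K)` be natural, and
let `m > 0`.

* If the kernel of `AJ` does not grow in the everywhere unramified extensions of prime degree, split
  above `m`, of totally complex fields `K ⊇ k`, then it does not grow in any extension of totally
  complex fields `K ⊇ k`; the same for the cokernel.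
* Let `K₀ ⊇ k` be totally complex. Then `AJ` is injective over all number fields `K ⊇ k` if and only
  if it is injective over `K₀` and its kernel does not grow in these unramified extensions; it is
  surjective over all number fields `K ⊇ k` if and only if it is surjective over `K₀` and its
  cokernel does not grow in these unramified extensions. -/
theorem result (F : Type) [Field F] [CharZero F] (k : Type) [Field k] [NumberField k]
    (A B : DescentFunctor F k) (AJ : NaturalMap A B) (m : ℕ) (hm : m ≠ 0) :
    (KernelUnramified AJ m → KernelComplex AJ) ∧ (CokernelUnramified AJ m → CokernelComplex AJ) ∧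
    ∀ (K₀ : Type) [Field K₀] [NumberField K₀] [Algebra k K₀], IsTotallyComplex K₀ →
      (InjectiveEverywhere AJ ↔ Function.Injective (AJ.app K₀) ∧ KernelUnramified AJ m) ∧
      (SurjectiveEverywhere AJ ↔ Function.Surjective (AJ.app K₀) ∧ CokernelUnramified AJ m) := by
  refine ⟨ker_all AJ hm, coker_all AJ hm, fun K₀ _ _ _ hK₀ => ?_⟩
  exact ⟨inj_iff AJ hm K₀ hK₀, surj_iff AJ hm K₀ hK₀⟩

end Pool.Agent.Results.MP_009fd8_ag.UnramifiedExtensions
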